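import Pool.Agent.T9h32.GT.Gen

/-!
# An integral polynomial which vanishes wherever the relations have a solution
-/

set_option autoImplicit false

namespace Pool.Agent.T9h32.GT

open Finset MvPolynomial

section

variable (ι : Type) [Fintype ι] [DecidableEq ι]

/-- the unknowns: the coordinates of the vectors, `ε` and the inverse of a determinant -/
abbrev Unk : Type := (ι ⊕ ι) ⊕ Fin 2

/-- the ring of parameters -/
abbrev PR : Type := MvPolynomial (Var ι) ℤ

/-- the ring of the unknowns over the ring of parameters -/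
abbrev UR : Type := MvPolynomial (Unk ι) (PR ι)

variable {ι}

/-- `λ i j` -/
noncomputable def lamP (i j : ι) : UR ι :=
  if h : i ≠ j then C (X (Sum.inl ⟨(i, j), h⟩)) else 0

/-- `u i` -/
noncomputable def uP (i : ι) : UR ι := C (X (Sum.inr i))

/-- first coordinate -/
noncomputable def alP (i : ι) : UR ι := X (Sum.inl (Sum.inl i))

/-- second coordinate -/
noncomputable def beP (i : ι) : UR ι := X (Sum.inl (Sum.inr i))

/-- `ε` -/
noncomputable def epP : UR ι := X (Sum.inr 0)

/-- the inverse of the determinant -/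
noncomputable def tP : UR ι := X (Sum.inr 1)

/-- the ideal of the relations -/
noncomputable def idl (s : ι → ℤ) (a b : ι) : Ideal (UR ι) :=
  Ideal.span (Set.range (fun i : ι => ∑ j, lamP i j * om alP beP j i * alP j -
      epP * (s i : UR ι) * uP i * alP i) ∪
    Set.range (fun i : ι => ∑ j, lamP i j * om alP beP j i * beP j -
      epP * (s i : UR ι) * uP i * beP i) ∪ {tP * om alP beP a b - 1})

omit [Fintype ι] [DecidableEq ι] in
theorem exists_field_of_prime {A : Type} [CommRing A] (q : Ideal A) [q.IsPrime] :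
    ∃ (L : Type) (_ : Field L) (ψ : A →+* L), ∀ x, ψ x = 0 ↔ x ∈ q := by
  refine ⟨FractionRing (A ⧸ q), inferInstance,
    (algebraMap (A ⧸ q) (FractionRing (A ⧸ q))).comp (Ideal.Quotient.mk q), fun x => ?_⟩
  rw [RingHom.comp_apply, map_eq_zero_iff _ (IsFractionRing.injective (A ⧸ q) (FractionRing (A ⧸ q))),
    Ideal.Quotient.eq_zero_iff_mem]

theorem exists_poly_one (s : ι → ℤ) (a b : ι) :
    ∃ P : PR ι, P ≠ 0 ∧ (C P : UR ι) ∈ idl s a b := by
  by_contra hcon
  push Not at hcon
  let T : Submonoid (UR ι) := (nonZeroDivisors (PR ι)).map (C : PR ι →+* UR ι)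
  have hdisj : Disjoint (idl s a b : Set (UR ι)) T := by
    rw [Set.disjoint_left]
    rintro x hx ⟨P, hP, rfl⟩
    exact hcon P (nonZeroDivisors.ne_zero hP) hx
  obtain ⟨q, hq, hIq, hqT⟩ := Ideal.exists_le_prime_disjoint (idl s a b) T hdisj
  obtain ⟨L, iL, ψ, hψ⟩ := exists_field_of_prime q
  have hz : ∀ x ∈ idl s a b, ψ x = 0 := fun x hx => (hψ x).2 (hIq hx)
  have hC : ∀ P : PR ι, ψ (C P) = 0 → P = 0 := by
    intro P hP
    by_contra h0
    exact Set.disjoint_left.1 hqT ((hψ _).1 hP)
      ⟨P, mem_nonZeroDivisors_of_ne_zero h0, rfl⟩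
  have hom' : ∀ i j : ι, ψ (om alP beP i j) = om (fun i => ψ (alP i)) (fun i => ψ (beP i)) i j := by
    intro i j
    unfold om
    rw [map_sub, map_mul, map_mul]
  have hX : AlgebraicIndependent ℤ (pt (fun i j => ψ (lamP i j)) (fun i => ψ (uP i))) := by
    rw [algebraicIndependent_iff]
    intro P hP
    apply hC
    rw [← hP]
    have h1 : (aeval (pt (fun i j : ι => ψ (lamP i j)) (fun i : ι => ψ (uP i))) :
        PR ι →ₐ[ℤ] L) =
        (ψ.comp (C : PR ι →+* UR ι)).toIntAlgHom := by
      refine MvPolynomial.algHom_ext fun v => ?_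
      rw [aeval_X]
      rcases v with ⟨⟨i, j⟩, h⟩ | i
      · show ψ (lamP i j) = ψ (C (X (Sum.inl ⟨(i, j), h⟩)))
        unfold lamP
        rw [dif_pos h]
      · rfl
    rw [h1]
    rfl
  have h0 := generic (ι := ι) (lam := fun i j => ψ (lamP i j)) (u := fun i => ψ (uP i)) s
    (ε := ψ epP) (α := fun i => ψ (alP i)) (β := fun i => ψ (beP i))
    (fun i => by
      have h := hz _ (Ideal.subset_span (Or.inl (Or.inl ⟨i, rfl⟩)))
      rw [map_sub, map_sum, sub_eq_zero] at h
      simp only [map_mul, map_intCast, hom'] at h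
      exact h)
    (fun i => by
      have h := hz _ (Ideal.subset_span (Or.inl (Or.inr ⟨i, rfl⟩)))
      rw [map_sub, map_sum, sub_eq_zero] at h
      simp only [map_mul, map_intCast, hom'] at h
      exact h) hX a b
  have h := hz _ (Ideal.subset_span (Or.inr rfl))
  rw [map_sub, map_mul, hom', h0, mul_zero, zero_sub, map_one, neg_eq_zero] at h
  exact one_ne_zero h

/-- there is no solution with two vectors which are not parallel -/
def NoSolution {k : Type} [Field k] (lam : ι → ι → k) (u : ι → k) (s : ι → ℤ) : Prop :=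
  ∀ (ε : k) (α β : ι → k),
    (∀ i, ∑ j, lam i j * om α β j i * α j = ε * (s i : k) * u i * α i) →
    (∀ i, ∑ j, lam i j * om α β j i * β j = ε * (s i : k) * u i * β i) →
    ∀ a b, om α β a b = 0

theorem eval_zero_of {k : Type} [Field k] {lam : ι → ι → k} {u : ι → k} {s : ι → ℤ} {a b : ι}
    {P : PR ι} (hP : (C P : UR ι) ∈ idl s a b) {ε : k} {α β : ι → k}
    (h1 : ∀ i, ∑ j, lam i j * om α β j i * α j = ε * (s i : k) * u i * α i)
    (h2 : ∀ i, ∑ j, lam i j * om α β j i * β j = ε * (s i : k) * u i * β i)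
    (hab : om α β a b ≠ 0) : aeval (pt lam u) P = 0 := by
  let φ : UR ι →+* k := eval₂Hom ((aeval (pt lam u) : PR ι →ₐ[ℤ] k) : PR ι →+* k)
    (Sum.elim (Sum.elim α β) ![ε, (om α β a b)⁻¹])
  have hφα : ∀ i, φ (alP i) = α i := fun i => by simp [φ, alP]
  have hφβ : ∀ i, φ (beP i) = β i := fun i => by simp [φ, beP]
  have hφε : φ epP = ε := by simp [φ, epP]
  have hφt : φ tP = (om α β a b)⁻¹ := by simp [φ, tP]
  have hφu : ∀ i, φ (uP i) = u i := fun i => by simp [φ, uP, pt]
  have hφo : ∀ i j, φ (om alP beP i j) = om α β i j := by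
    intro i j
    unfold om
    rw [map_sub, map_mul, map_mul, hφα, hφα, hφβ, hφβ]
  have hφl : ∀ i j, φ (lamP i j) * om α β j i = lam i j * om α β j i := by
    intro i j
    unfold lamP
    split_ifs with h
    · have : φ (C (X (Sum.inl ⟨(i, j), h⟩))) = lam i j := by simp [φ, pt]
      rw [this]
    · have h' : i = j := not_not.1 h
      subst h'
      have : om α β i i = 0 := by unfold om; ring
      rw [this, mul_zero, mul_zero]
  have hker : idl s a b ≤ RingHom.ker φ := by
    unfold idl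
    rw [Ideal.span_le]
    rintro x ((⟨i, rfl⟩ | ⟨i, rfl⟩) | rfl)
    · rw [SetLike.mem_coe, RingHom.mem_ker, map_sub, map_sum, sub_eq_zero]
      simp only [map_mul, map_intCast, hφo, hφα, hφε, hφu, hφl]
      exact h1 i
    · rw [SetLike.mem_coe, RingHom.mem_ker, map_sub, map_sum, sub_eq_zero]
      simp only [map_mul, map_intCast, hφo, hφβ, hφε, hφu, hφl]
      exact h2 i
    · rw [SetLike.mem_coe, RingHom.mem_ker, map_sub, map_mul, map_one, hφt, hφo,
        inv_mul_cancel₀ hab, sub_self]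
  have h := hker hP
  rw [RingHom.mem_ker] at h
  simpa [φ] using h

variable (ι)

/-- **The polynomial.** -/
theorem exists_poly : ∃ P : PR ι, P ≠ 0 ∧ ∀ (k : Type) [Field k] (lam : ι → ι → k) (u : ι → k),
    aeval (pt lam u) P ≠ 0 → ∀ s : ι → ℤ, (∀ i, s i = 0 ∨ s i = 1) → NoSolution lam u s := by
  classical
  choose P hP0 hP using fun (s : ι → ℤ) (a b : ι) => exists_poly_one s a b
  let Q : PR ι := ∏ σ : ι → Fin 2, ∏ x : ι × ι, P (fun i => ((σ i : ℕ) : ℤ)) x.1 x.2
  refine ⟨Q, Finset.prod_ne_zero_iff.2 fun σ _ => Finset.prod_ne_zero_iff.2 fun x _ => hP0 _ _ _,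
    ?_⟩
  intro k _ lam u hne s hs ε α β h1 h2 a b
  by_contra hab
  apply hne
  have hσ : s = fun i => (((if s i = 0 then 0 else 1 : Fin 2) : ℕ) : ℤ) := by
    funext i
    rcases hs i with h | h
    · rw [h]
      simp
    · rw [h]
      simp
  have h := eval_zero_of (hP s a b) h1 h2 hab
  have e : Q = ∏ σ : ι → Fin 2, ∏ x : ι × ι, P (fun i => ((σ i : ℕ) : ℤ)) x.1 x.2 := rfl
  rw [e, map_prod]
  refine Finset.prod_eq_zero (mem_univ fun i => (if s i = 0 then 0 else 1 : Fin 2)) ?_
  rw [map_prod]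
  refine Finset.prod_eq_zero (mem_univ (a, b)) ?_
  rw [← hσ]
  exact h

end

end Pool.Agent.T9h32.GT
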