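import Pool.Agent.T9h32.GT.Pol

/-!
# Nilpotent two by two matrices
-/

set_option autoImplicit false

namespace Pool.Agent.T9h32.GT

open Finset MvPolynomial Matrix

/-- nilpotent two by two matrices over an algebraically closed field -/
theorem exists_sqrt {k : Type} [Field k] [IsAlgClosed k] (M : Matrix (Fin 2) (Fin 2) k)
    (h : M * M = 0) : ∃ α β : k, M = !![α * β, -(α * α); β * β, -(α * β)] := by
  have e : ∀ i j, M i 0 * M 0 j + M i 1 * M 1 j = 0 := fun i j => by
    have := congrFun (congrFun h i) j
    rwa [Matrix.mul_apply, Fin.sum_univ_two, Matrix.zero_apply] at this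
  obtain ⟨α, hα⟩ := IsAlgClosed.exists_pow_nat_eq (-(M 0 1)) two_pos
  obtain ⟨β, hβ⟩ := IsAlgClosed.exists_pow_nat_eq (M 1 0) two_pos
  -- the trace vanishes
  have htr : M 0 0 + M 1 1 = 0 := by
    by_contra hne
    have h01 : M 0 1 = 0 := by
      have := e 0 1
      have h' : M 0 1 * (M 0 0 + M 1 1) = 0 := by linear_combination this
      exact (mul_eq_zero.1 h').resolve_right hne
    have h10 : M 1 0 = 0 := by
      have := e 1 0
      have h' : M 1 0 * (M 0 0 + M 1 1) = 0 := by linear_combination this
      exact (mul_eq_zero.1 h').resolve_right hne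
    have h00 := e 0 0
    have h11 := e 1 1
    rw [h01, zero_mul, add_zero, mul_self_eq_zero] at h00
    rw [h10, zero_mul, zero_add, mul_self_eq_zero] at h11
    exact hne (by rw [h00, h11, add_zero])
  have hsq : (M 0 0 - α * β) * (M 0 0 + α * β) = 0 := by
    have h00 := e 0 0
    have : α ^ 2 * β ^ 2 = -(M 0 1) * M 1 0 := by rw [hα, hβ]
    linear_combination h00 - this
  have h11 : M 1 1 = -(M 0 0) := by linear_combination htr
  rcases mul_eq_zero.1 hsq with h1 | h1
  · refine ⟨α, β, ?_⟩
    ext i j
    fin_cases i <;> fin_cases j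
    · simpa using sub_eq_zero.1 h1
    · simp only [Fin.zero_eta, Fin.mk_one, of_apply, cons_val', cons_val_one, cons_val_zero,
        cons_val_fin_one]
      linear_combination hα
    · simp only [Fin.zero_eta, Fin.mk_one, of_apply, cons_val', cons_val_one, cons_val_zero,
        cons_val_fin_one]
      linear_combination -hβ
    · simp only [Fin.mk_one, of_apply, cons_val', cons_val_one, cons_val_fin_one]
      rw [h11]
      linear_combination -h1
  · refine ⟨α, -β, ?_⟩
    ext i j
    fin_cases i <;> fin_cases j
    · simp only [Fin.zero_eta, of_apply, cons_val', cons_val_zero, cons_val_fin_one]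
      linear_combination h1
    · simp only [Fin.zero_eta, Fin.mk_one, of_apply, cons_val', cons_val_one, cons_val_zero,
        cons_val_fin_one]
      linear_combination hα
    · simp only [Fin.zero_eta, Fin.mk_one, of_apply, cons_val', cons_val_one, cons_val_zero,
        cons_val_fin_one]
      linear_combination -hβ
    · simp only [Fin.mk_one, of_apply, cons_val', cons_val_one, cons_val_fin_one]
      rw [h11]
      linear_combination -h1

section

variable {ι : Type} [Fintype ι] [DecidableEq ι]

/-- the matrix of the vector `(α, β)` -/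
def nil2 {k : Type} [CommRing k] (α β : k) : Matrix (Fin 2) (Fin 2) k :=
  !![α * β, -(α * α); β * β, -(α * β)]

omit [Fintype ι] [DecidableEq ι] in
theorem nil2_mul {k : Type} [CommRing k] (α β : ι → k) (i j : ι) :
    nil2 (α i) (β i) * nil2 (α j) (β j) =
      om α β i j • !![-(α i * β j), α i * α j; -(β i * β j), β i * α j] := by
  unfold nil2 om
  ext a b
  fin_cases a <;> fin_cases b <;> simp [Matrix.mul_apply, Fin.sum_univ_two] <;> ring

/-- there are no solutions in nilpotent matrices -/
theorem mat_of_closed {k : Type} [Field k] [IsAlgClosed k] (h2 : (2 : k) ≠ 0) {lam : ι → ι → k}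
    {u : ι → k} {s : ι → ℤ} (hN : NoSolution lam u s) (M : ι → Matrix (Fin 2) (Fin 2) k)
    (hM : ∀ i, M i * M i = 0)
    (hrel : ∀ i, (∑ j, lam i j • M j) * M i - M i * (∑ j, lam i j • M j) =
      ((s i : k) * u i) • M i) (i j : ι) : M i * M j = 0 := by
  choose α β hαβ using fun i => exists_sqrt (M i) (hM i)
  have hMn : ∀ i, M i = nil2 (α i) (β i) := hαβ
  -- the entries of the relation
  have hent : ∀ i, (∑ j, lam i j • (M j * M i - M i * M j)) = ((s i : k) * u i) • M i := by
    intro i
    rw [← hrel i, Finset.sum_mul, Finset.mul_sum, ← Finset.sum_sub_distrib]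
    refine Finset.sum_congr rfl fun j _ => ?_
    rw [smul_sub, smul_mul_assoc, mul_smul_comm]
  have hcomm : ∀ i j, M j * M i - M i * M j = om α β j i •
      !![-(α j * β i + α i * β j), 2 * (α i * α j); -(2 * (β i * β j)), α j * β i + α i * β j] := by
    intro i j
    rw [hMn i, hMn j, nil2_mul, nil2_mul]
    unfold om
    ext a b
    fin_cases a <;> fin_cases b <;> simp <;> ring
  have key : ∀ i, ∑ j, lam i j * om α β j i * α j = (-1 / 2) * (s i : k) * u i * α i ∧
      ∑ j, lam i j * om α β j i * β j = (-1 / 2) * (s i : k) * u i * β i := by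
    intro i
    have h := hent i
    simp only [hcomm] at h
    rw [hMn i] at h
    set Z1 := ∑ j, lam i j * om α β j i * α j with hZ1
    set Z2 := ∑ j, lam i j * om α β j i * β j with hZ2
    have e01 : 2 * α i * Z1 = -((s i : k) * u i) * (α i * α i) := by
      have h' := congrFun (congrFun h 0) 1
      rw [Matrix.sum_apply] at h'
      simp only [nil2, Matrix.smul_apply, of_apply, cons_val', cons_val_one, cons_val_zero,
        cons_val_fin_one, smul_eq_mul] at h'
      rw [hZ1, Finset.mul_sum]
      refine Eq.trans (Finset.sum_congr rfl fun j _ => ?_) (h'.trans (by ring))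
      ring
    have e10 : 2 * β i * Z2 = -((s i : k) * u i) * (β i * β i) := by
      have h' := congrFun (congrFun h 1) 0
      rw [Matrix.sum_apply] at h'
      simp only [nil2, Matrix.smul_apply, of_apply, cons_val', cons_val_one, cons_val_zero,
        cons_val_fin_one, smul_eq_mul] at h'
      rw [hZ2, Finset.mul_sum]
      have h'' := congrArg Neg.neg h'
      rw [← Finset.sum_neg_distrib] at h''
      refine Eq.trans (Finset.sum_congr rfl fun j _ => ?_) (h''.trans (by ring))
      ring
    have e00 : β i * Z1 + α i * Z2 = -((s i : k) * u i) * (α i * β i) := by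
      have h' := congrFun (congrFun h 0) 0
      rw [Matrix.sum_apply] at h'
      simp only [nil2, Matrix.smul_apply, of_apply, cons_val', cons_val_zero,
        cons_val_fin_one, smul_eq_mul] at h'
      rw [hZ1, hZ2, Finset.mul_sum, Finset.mul_sum, ← Finset.sum_add_distrib]
      have h'' := congrArg Neg.neg h'
      rw [← Finset.sum_neg_distrib] at h''
      refine Eq.trans (Finset.sum_congr rfl fun j _ => ?_) (h''.trans (by ring))
      ring
    by_cases hα : α i = 0
    · by_cases hβ : β i = 0
      · have h0 : ∀ j, om α β j i = 0 := by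
          intro j
          unfold om
          rw [hα, hβ]
          ring
        rw [hZ1, hZ2]
        simp [h0, hα, hβ]
      · rw [hα] at e00 ⊢
        constructor
        · have : β i * Z1 = 0 := by linear_combination e00
          rw [(mul_eq_zero.1 this).resolve_left hβ, mul_zero]
        · have : β i * (2 * Z2 + (s i : k) * u i * β i) = 0 := by linear_combination e10
          have h3 := (mul_eq_zero.1 this).resolve_left hβ
          field_simp
          linear_combination h3
    · have t1 : α i * (2 * Z1 + (s i : k) * u i * α i) = 0 := by linear_combination e01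
      have t2 := (mul_eq_zero.1 t1).resolve_left hα
      have t3 : α i * (2 * Z2 + (s i : k) * u i * β i) = 0 := by
        linear_combination 2 * e00 - β i * t2
      have t4 := (mul_eq_zero.1 t3).resolve_left hα
      constructor
      · field_simp
        linear_combination t2
      · field_simp
        linear_combination t4
  have h0 := hN (-1 / 2) α β (fun i => (key i).1) (fun i => (key i).2) i j
  rw [hMn i, hMn j, nil2_mul, h0, zero_smul]

omit [Fintype ι] [DecidableEq ι] in
theorem aeval_pt_map {k k' : Type} [CommRing k] [CommRing k'] (g : k →+* k') (L : ι → ι → k)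
    (U : ι → k) (P : MvPolynomial (Var ι) ℤ) :
    aeval (pt (fun i j => g (L i j)) (fun i => g (U i))) P = g (aeval (pt L U) P) := by
  have e : (aeval (pt (fun i j => g (L i j)) (fun i => g (U i))) : MvPolynomial (Var ι) ℤ →ₐ[ℤ] k')
      = g.toIntAlgHom.comp (aeval (pt L U)) := by
    refine MvPolynomial.algHom_ext fun v => ?_
    rw [AlgHom.comp_apply, aeval_X, aeval_X]
    rcases v with v | v <;> rfl
  rw [e, AlgHom.comp_apply]
  rfl

/-- There are no nonproportional nilpotent two by two matrices over a field of characteristic `p`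
with the relations given by `L` and some of the numbers `U`. -/
def Gd {p : ℕ} (L : ι → ι → ZMod p) (U : ι → ZMod p) : Prop :=
  ∀ (K : Type) [Field K] [Algebra (ZMod p) K] (s : ι → ℤ), (∀ i, s i = 0 ∨ s i = 1) →
    ∀ M : ι → Matrix (Fin 2) (Fin 2) K, (∀ i, M i * M i = 0) →
    (∀ i, (∑ j, L i j • M j) * M i - M i * (∑ j, L i j • M j) = ((s i : ZMod p) * U i) • M i) →
    ∀ i j, M i * M j = 0

variable (ι)

theorem exists_poly_gd : ∃ P : MvPolynomial (Var ι) ℤ, P ≠ 0 ∧ ∀ (p : ℕ) [Fact p.Prime], p ≠ 2 →
    ∀ (L : ι → ι → ZMod p) (U : ι → ZMod p), aeval (pt L U) P ≠ 0 → Gd L U := by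
  obtain ⟨P, hP0, hP⟩ := exists_poly ι
  refine ⟨P, hP0, ?_⟩
  intro p hpF hp2 L U hne K _ _ s hs M hM hrel i j
  have hp : p.Prime := hpF.out
  let K' : Type := AlgebraicClosure K
  let f : K →+* K' := algebraMap K K'
  let g : ZMod p →+* K' := f.comp (algebraMap (ZMod p) K)
  have hinj : Function.Injective g := g.injective
  have h2 : (2 : K') ≠ 0 := by
    intro h
    have h3 : g 2 = 0 := by rw [map_ofNat]; exact h
    have h4 : (2 : ZMod p) = 0 := hinj (by rw [h3, map_zero])
    have h5 : ((2 : ℕ) : ZMod p) = 0 := by exact_mod_cast h4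
    rw [ZMod.natCast_eq_zero_iff] at h5
    exact hp2 ((Nat.prime_dvd_prime_iff_eq hp Nat.prime_two).1 h5)
  have hN := hP K' (fun i j => g (L i j)) (fun i => g (U i)) (by
    rw [aeval_pt_map g]
    exact fun h => hne (hinj (h.trans (map_zero g).symm))) s hs
  have hsm : ∀ (c : ZMod p) (X : Matrix (Fin 2) (Fin 2) K), (c • X).map f = g c • X.map f := by
    intro c X
    ext a b
    rw [Matrix.map_apply, Matrix.smul_apply, Matrix.smul_apply, Matrix.map_apply,
      Algebra.smul_def, map_mul, smul_eq_mul]
    rfl
  have hmm : ∀ X Y : Matrix (Fin 2) (Fin 2) K, (X * Y).map f = X.map f * Y.map f := fun X Y =>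
    Matrix.map_mul
  have h := mat_of_closed h2 hN (fun i => (M i).map f) (fun i => by
    rw [← hmm, hM, Matrix.map_zero f (map_zero f)]) (fun i => by
      have hsum : ∑ j, g (L i j) • (M j).map f = (∑ j, L i j • M j).map f := by
        show _ = f.mapMatrix _
        rw [map_sum]
        exact Finset.sum_congr rfl fun j _ => (hsm _ _).symm
      rw [hsum, ← hmm, ← hmm, ← Matrix.map_sub f (fun a b => map_sub f a b), hrel i, hsm, map_mul,
        map_intCast]) i j
  rw [← hmm] at h
  ext a b
  have h1 := congrFun (congrFun h a) b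
  rw [Matrix.map_apply, Matrix.zero_apply] at h1
  exact f.injective (h1.trans (map_zero f).symm)

end

end Pool.Agent.T9h32.GT
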