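import Pool.Agent.T9h32.GT.Mat
import Pool.Agent.N829.QD.Nest

/-!
# The number of the data with zero diagonal at which a polynomial vanishes (Schwartz-Zippel)
-/

set_option autoImplicit false

open MvPolynomial

namespace Pool.Agent.T9h32.GT

open Pool.Agent.Q202.QT (Dat Z)

section

variable {m p : ℕ} [hpF : Fact p.Prime]

/-- the point of the data -/
def ptD (D : Dat p m) : Var (Fin m) → ZMod p := pt (fun l => (D.1 l).2) (fun l => (D.1 l).1)

theorem zeros_le {n : ℕ} {P : MvPolynomial (Fin n) (ZMod p)} (hP : P ≠ 0) :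
    ((Fintype.piFinset fun _ : Fin n => (Finset.univ : Finset (ZMod p))).filter
      fun f => eval f P = 0).card * p ≤ P.totalDegree * p ^ n := by
  have hp0 : 0 < p := hpF.out.pos
  have hsz := schwartz_zippel_totalDegree hP (Finset.univ : Finset (ZMod p))
  rw [Finset.card_univ, ZMod.card] at hsz
  have hq : (0 : ℚ≥0) < (p : ℚ≥0) := by exact_mod_cast hp0
  rw [div_le_div_iff₀ (pow_pos hq n) hq] at hsz
  exact_mod_cast hsz

open Classical in
theorem bad_count {P : MvPolynomial (Var (Fin m)) ℤ}
    (hP : MvPolynomial.map (Int.castRingHom (ZMod p)) P ≠ 0) :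
    ((Z p m).filter fun D => aeval (ptD D) P = 0).card * p ≤ P.totalDegree * p ^ (m ^ 2 + m) := by
  have hcard : Fintype.card (Var (Fin m)) = m * m := by
    rw [card_var, Fintype.card_fin]
  let e : Var (Fin m) ≃ Fin (m * m) := Fintype.equivFinOfCardEq hcard
  set Q : MvPolynomial (Fin (m * m)) (ZMod p) :=
    rename e (MvPolynomial.map (Int.castRingHom (ZMod p)) P) with hQ
  have hQ0 : Q ≠ 0 := by
    rw [hQ, Ne, map_eq_zero_iff _ (rename_injective e e.injective)]
    exact hP
  have hdeg : Q.totalDegree ≤ P.totalDegree := by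
    refine (totalDegree_rename_le _ _).trans ?_
    unfold totalDegree
    exact Finset.sup_mono (support_map_subset _ _)
  let f : Dat p m → (Fin (m * m) → ZMod p) := fun D i => ptD D (e.symm i)
  have hf : ∀ D, eval (f D) Q = aeval (ptD D) P := by
    intro D
    rw [hQ, eval_rename, eval_map]
    have : f D ∘ e = ptD D := by
      funext v
      show ptD D (e.symm (e v)) = _
      rw [Equiv.symm_apply_apply]
    rw [this, aeval_def]
    rfl
  set E := ((Fintype.piFinset fun _ : Fin (m * m) => (Finset.univ : Finset (ZMod p))).filter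
      fun f => eval f Q = 0) with hE
  have h1 : ((Z p m).filter fun D => aeval (ptD D) P = 0).card ≤ E.card * p ^ m := by
    have h2 : (E ×ˢ (Finset.univ : Finset (Fin m → ZMod p))).card = E.card * p ^ m := by
      rw [Finset.card_product, Finset.card_univ, Fintype.card_fun, ZMod.card, Fintype.card_fin]
    rw [← h2]
    refine Finset.card_le_card_of_injOn (fun D => (f D, D.2)) ?_ ?_
    · intro D hD
      obtain ⟨hD1, hD2⟩ := Finset.mem_filter.1 hD
      refine Finset.mem_product.2 ⟨Finset.mem_filter.2 ⟨?_, ?_⟩, Finset.mem_univ _⟩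
      · rw [Fintype.mem_piFinset]
        exact fun _ => Finset.mem_univ _
      · rw [← hD2, hf]
    · intro D hD D' hD' h
      have z1 := (Finset.mem_filter.1 (Finset.mem_filter.1 hD).1).2
      have z2 := (Finset.mem_filter.1 (Finset.mem_filter.1 hD').1).2
      obtain ⟨e1, e2⟩ := Prod.ext_iff.1 h
      have e3 : ptD D = ptD D' := by
        funext v
        have := congrFun e1 (e v)
        simp only [f, Equiv.symm_apply_apply] at this
        exact this
      refine Prod.ext (funext fun i => Prod.ext ?_ (funext fun j => ?_)) e2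
      · exact congrFun e3 (Sum.inr i)
      · by_cases hij : i = j
        · rw [← hij, z1, z2]
        · exact congrFun e3 (Sum.inl ⟨(i, j), hij⟩)
  calc ((Z p m).filter fun D => aeval (ptD D) P = 0).card * p ≤ (E.card * p ^ m) * p :=
        Nat.mul_le_mul_right _ h1
    _ = (E.card * p) * p ^ m := by ring
    _ ≤ (Q.totalDegree * p ^ (m * m)) * p ^ m := Nat.mul_le_mul_right _ (zeros_le hQ0)
    _ ≤ (P.totalDegree * p ^ (m * m)) * p ^ m :=
        Nat.mul_le_mul_right _ (Nat.mul_le_mul_right _ hdeg)
    _ = P.totalDegree * p ^ (m ^ 2 + m) := by rw [mul_assoc, ← pow_add, pow_two]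

end

/-- a nonzero integral polynomial is nonzero modulo all primes not dividing some number -/
theorem exists_coeff {σ : Type} {P : MvPolynomial σ ℤ} (hP : P ≠ 0) :
    ∃ c : ℕ, c ≠ 0 ∧ ∀ (p : ℕ) [Fact p.Prime], ¬ p ∣ c →
      MvPolynomial.map (Int.castRingHom (ZMod p)) P ≠ 0 := by
  obtain ⟨d, hd⟩ := MvPolynomial.ne_zero_iff.1 hP
  refine ⟨(coeff d P).natAbs, Int.natAbs_ne_zero.2 hd, ?_⟩
  intro p _ hp h
  apply hp
  have h1 := congrArg (coeff d) h
  rw [coeff_map, coeff_zero, eq_intCast, ZMod.intCast_zmod_eq_zero_iff_dvd] at h1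
  exact Int.natCast_dvd.1 h1

end Pool.Agent.T9h32.GT
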