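import Pool.Agent.T9h32.GT.Trd

/-!
# The relations have no solutions over fields in which the coefficients are independent
-/

set_option autoImplicit false

namespace Pool.Agent.T9h32.GT

open Finset

/-- pairs of different indices -/
abbrev Off (ι : Type) : Type := {x : ι × ι // x.1 ≠ x.2}

/-- the variables: the numbers `λ i j`, `i ≠ j`, and `u i` -/
abbrev Var (ι : Type) : Type := Off ι ⊕ ι

/-- the point of the affine space with the variables `Var ι` -/
def pt {L ι : Type} (lam : ι → ι → L) (u : ι → L) : Var ι → L :=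
  Sum.elim (fun x => lam x.1.1 x.1.2) u

/-- the determinants of the pairs of vectors `(α i, β i)` -/
def om {L ι : Type} [CommRing L] (α β : ι → L) (i j : ι) : L := α i * β j - β i * α j

theorem card_var (ι : Type) [Fintype ι] [DecidableEq ι] :
    Fintype.card (Var ι) = Fintype.card ι * Fintype.card ι := by
  rw [Fintype.card_sum]
  have h1 : Fintype.card (Off ι) = (Finset.univ : Finset ι).offDiag.card := by
    refine Fintype.card_of_subtype _ fun x => ?_
    rw [Finset.mem_offDiag]
    simp
  rw [h1, Finset.offDiag_card, Finset.card_univ]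
  have := Nat.le_mul_self (Fintype.card ι)
  omega

section

variable {L : Type} [Field L] {ι : Type} [Fintype ι] [DecidableEq ι]

theorem case_one {lam : ι → ι → L} {u : ι → L} (s : ι → ℤ) {ε : L} {α β : ι → L} {a b c : ι}
    (ha : α a = 1) (ha' : β a = 0) (hb : α b = 0) (hb' : β b = 1) (hc : α c ≠ 0) (hc' : β c ≠ 0)
    (hw : ∀ i, α i ≠ 0 ∨ β i ≠ 0)
    (h1 : ∀ i, ∑ j, lam i j * om α β j i * α j = ε * (s i : L) * u i * α i)
    (h2 : ∀ i, ∑ j, lam i j * om α β j i * β j = ε * (s i : L) * u i * β i)
    (hX : AlgebraicIndependent ℤ (pt lam u)) : False := by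
  classical
  have hJ : ∀ i, ∃ j1 j2, om α β j1 i ≠ 0 ∧ om α β j2 i ≠ 0 ∧ om α β j1 j2 ≠ 0 := by
    intro i
    unfold om
    by_cases hβ : β i = 0
    · have hα := (hw i).resolve_right (fun h => h hβ)
      refine ⟨b, c, ?_, ?_, ?_⟩
      · simpa [hb, hb'] using hα
      · rw [hβ, mul_zero, zero_sub, neg_ne_zero]
        exact mul_ne_zero hc' hα
      · simpa [hb, hb'] using hc
    · by_cases hα : α i = 0
      · refine ⟨a, c, ?_, ?_, ?_⟩
        · simpa [ha, ha'] using hβ
        · rw [hα, mul_zero, sub_zero]
          exact mul_ne_zero hc hβ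
        · simpa [ha, ha'] using hc'
      · refine ⟨a, b, ?_, ?_, ?_⟩
        · simpa [ha, ha'] using hβ
        · simpa [hb, hb'] using hα
        · simp [ha, ha', hb, hb']
  choose j1 j2 g1 g2 g3 using hJ
  have n1 : ∀ i, j1 i ≠ i := fun i h => g1 i (by rw [h]; unfold om; ring)
  have n2 : ∀ i, j2 i ≠ i := fun i h => g2 i (by rw [h]; unfold om; ring)
  have n3 : ∀ i, j1 i ≠ j2 i := fun i h => g3 i (by rw [h]; unfold om; ring)
  have nab : a ≠ b := fun h => one_ne_zero (ha.symm.trans (h ▸ hb))
  set Y1 : Finset L := univ.image u with hY1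
  set Y3 : Finset L := (univ \ {a, b}).biUnion fun i => {α i, β i} with hY3
  set Y4 : Finset L := univ.biUnion fun i => (univ \ {i, j1 i, j2 i}).image (lam i) with hY4
  set Y : Finset L := Y1 ∪ {ε} ∪ Y3 ∪ Y4 with hY
  set F : Subfield L := Subfield.closure (Y : Set L) with hF
  have hYF : ∀ y ∈ Y, y ∈ F := fun y hy => Subfield.subset_closure (by exact_mod_cast hy)
  have hu : ∀ i, u i ∈ F := fun i => hYF _ (by simp [hY, hY1])
  have hε : ε ∈ F := hYF _ (by simp [hY])
  have hαβ : ∀ i, α i ∈ F ∧ β i ∈ F := by
    intro i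
    by_cases hia : i = a
    · rw [hia, ha, ha']
      exact ⟨F.one_mem, F.zero_mem⟩
    · by_cases hib : i = b
      · rw [hib, hb, hb']
        exact ⟨F.zero_mem, F.one_mem⟩
      · have hi : i ∈ (univ \ {a, b} : Finset ι) := by simp [hia, hib]
        have hsub : ({α i, β i} : Finset L) ⊆ Y := by
          refine (Finset.subset_biUnion_of_mem (fun i => ({α i, β i} : Finset L)) hi).trans ?_
          rw [hY]
          exact (Finset.subset_union_right).trans Finset.subset_union_left
        exact ⟨hYF _ (hsub (by simp)), hYF _ (hsub (by simp))⟩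
  have hom : ∀ i j, om α β i j ∈ F := fun i j =>
    F.sub_mem (F.mul_mem (hαβ i).1 (hαβ j).2) (F.mul_mem (hαβ i).2 (hαβ j).1)
  have hrest : ∀ i j, j ≠ i → j ≠ j1 i → j ≠ j2 i → lam i j ∈ F := by
    intro i j e1 e2 e3
    apply hYF
    rw [hY]
    apply Finset.mem_union_right
    rw [hY4, Finset.mem_biUnion]
    exact ⟨i, mem_univ i, Finset.mem_image.2 ⟨j, by simp [e1, e2, e3], rfl⟩⟩
  have key : ∀ (γ : ι → L), (∀ i, γ i ∈ F) →
      (∀ i, ∑ j, lam i j * om α β j i * γ j = ε * (s i : L) * u i * γ i) → ∀ i,
      lam i (j1 i) * om α β (j1 i) i * γ (j1 i) + lam i (j2 i) * om α β (j2 i) i * γ (j2 i) ∈ F := by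
    intro γ hγ h i
    have hi := h i
    rw [← Finset.sum_sdiff (Finset.subset_univ ({i, j1 i, j2 i} : Finset ι)),
      Finset.sum_insert (by simp [(n1 i).symm, (n2 i).symm]), Finset.sum_pair (n3 i)] at hi
    have h0 : om α β i i = 0 := by unfold om; ring
    rw [h0, mul_zero, zero_mul, zero_add] at hi
    rw [← eq_sub_iff_add_eq'] at hi
    rw [hi]
    refine F.sub_mem ?_ (F.sum_mem fun j hj => ?_)
    · exact F.mul_mem (F.mul_mem (F.mul_mem hε (F.intCast_mem _)) (hu i)) (hγ i)
    · simp only [mem_sdiff, mem_univ, true_and, mem_insert, mem_singleton, not_or] at hj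
      exact F.mul_mem (F.mul_mem (hrest i j hj.1 hj.2.1 hj.2.2) (hom j i)) (hγ j)
  have kα := key α (fun i => (hαβ i).1) h1
  have kβ := key β (fun i => (hαβ i).2) h2
  have s1 : ∀ i, lam i (j1 i) ∈ F := by
    intro i
    have hne : om α β (j1 i) i * om α β (j1 i) (j2 i) ≠ 0 := mul_ne_zero (g1 i) (g3 i)
    have e : lam i (j1 i) = ((lam i (j1 i) * om α β (j1 i) i * α (j1 i) +
        lam i (j2 i) * om α β (j2 i) i * α (j2 i)) * β (j2 i) -
        (lam i (j1 i) * om α β (j1 i) i * β (j1 i) +
        lam i (j2 i) * om α β (j2 i) i * β (j2 i)) * α (j2 i)) /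
        (om α β (j1 i) i * om α β (j1 i) (j2 i)) := by
      rw [eq_div_iff hne]
      unfold om
      ring
    rw [e]
    exact F.div_mem (F.sub_mem (F.mul_mem (kα i) (hαβ _).2) (F.mul_mem (kβ i) (hαβ _).1))
      (F.mul_mem (hom _ _) (hom _ _))
  have s2 : ∀ i, lam i (j2 i) ∈ F := by
    intro i
    have hne : om α β (j2 i) i * om α β (j1 i) (j2 i) ≠ 0 := mul_ne_zero (g2 i) (g3 i)
    have e : lam i (j2 i) = ((lam i (j1 i) * om α β (j1 i) i * β (j1 i) +
        lam i (j2 i) * om α β (j2 i) i * β (j2 i)) * α (j1 i) -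
        (lam i (j1 i) * om α β (j1 i) i * α (j1 i) +
        lam i (j2 i) * om α β (j2 i) i * α (j2 i)) * β (j1 i)) /
        (om α β (j2 i) i * om α β (j1 i) (j2 i)) := by
      rw [eq_div_iff hne]
      unfold om
      ring
    rw [e]
    exact F.div_mem (F.sub_mem (F.mul_mem (kβ i) (hαβ _).1) (F.mul_mem (kα i) (hαβ _).2))
      (F.mul_mem (hom _ _) (hom _ _))
  have hall : ∀ v, pt lam u v ∈ F := by
    rintro (⟨⟨i, j⟩, hij⟩ | i)
    · show lam i j ∈ F
      have hij' : j ≠ i := fun h => hij h.symm
      by_cases e1 : j = j1 i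
      · rw [e1]; exact s1 i
      · by_cases e2 : j = j2 i
        · rw [e2]; exact s2 i
        · exact hrest i j hij' e1 e2
    · exact hu i
  have hcard := card_le hX Y hall
  rw [card_var] at hcard
  set m := Fintype.card ι with hm
  have c1 : Y1.card ≤ m := Finset.card_image_le.trans (le_of_eq Finset.card_univ)
  have cab : (univ \ {a, b} : Finset ι).card = m - 2 := by
    rw [Finset.card_sdiff_of_subset (Finset.subset_univ _), Finset.card_pair nab, Finset.card_univ]
  have c3 : Y3.card ≤ (m - 2) * 2 := by
    rw [hY3, ← cab]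
    exact Finset.card_biUnion_le_card_mul _ _ _ fun i _ => Finset.card_le_two
  have c4 : Y4.card ≤ m * (m - 3) := by
    have := Finset.card_biUnion_le_card_mul (univ : Finset ι)
      (fun i => (univ \ {i, j1 i, j2 i}).image (lam i)) (m - 3) fun i _ => by
        refine Finset.card_image_le.trans (le_of_eq ?_)
        rw [Finset.card_sdiff_of_subset (Finset.subset_univ _), Finset.card_univ,
          Finset.card_eq_three.2 ⟨i, j1 i, j2 i, (n1 i).symm, (n2 i).symm, n3 i, rfl⟩]
    rwa [Finset.card_univ] at this
  have h3m : 3 ≤ m := by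
    rw [hm, ← Finset.card_univ, ← Finset.card_eq_three.2 ⟨a, j1 a, j2 a, (n1 a).symm, (n2 a).symm,
      n3 a, rfl⟩]
    exact Finset.card_le_card (Finset.subset_univ _)
  have cY : Y.card ≤ m + 1 + (m - 2) * 2 + m * (m - 3) := by
    rw [hY]
    refine (Finset.card_union_le _ _).trans (Nat.add_le_add ((Finset.card_union_le _ _).trans
      (Nat.add_le_add ((Finset.card_union_le _ _).trans (Nat.add_le_add c1 ?_)) c3)) c4)
    rw [Finset.card_singleton]
  obtain ⟨k, hk⟩ := Nat.exists_eq_add_of_le h3m
  rw [hk] at cY hcard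
  have e1 : 3 + k - 2 = k + 1 := by omega
  have e2 : 3 + k - 3 = k := by omega
  rw [e1, e2] at cY
  have := hcard.trans cY
  nlinarith

theorem case_two {lam : ι → ι → L} {u : ι → L} (s : ι → ℤ) {ε : L} {α β : ι → L} {a b : ι}
    (ha : α a = 1) (ha' : β a = 0) (hb : α b = 0) (hb' : β b = 1)
    (hw : ∀ i, α i ≠ 0 ∨ β i ≠ 0) (hc : ∀ i, α i = 0 ∨ β i = 0)
    (h1 : ∀ i, ∑ j, lam i j * om α β j i * α j = ε * (s i : L) * u i * α i)
    (h2 : ∀ i, ∑ j, lam i j * om α β j i * β j = ε * (s i : L) * u i * β i)
    (hX : AlgebraicIndependent ℤ (pt lam u)) : False := by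
  classical
  have nab : a ≠ b := fun h => one_ne_zero (ha.symm.trans (h ▸ hb))
  set π : ι → ι := fun i => if α i = 0 then a else b with hπ
  have nπ : ∀ i, π i ≠ i := by
    intro i h
    rw [hπ] at h
    simp only at h
    split_ifs at h with h0
    · rw [← h, ha] at h0
      exact one_ne_zero h0
    · rw [← h] at h0
      exact h0 hb
  set Y1 : Finset L := univ.image u with hY1
  set Y3 : Finset L := (univ \ {a, b}).image fun i => α i + β i with hY3
  set Y4 : Finset L := univ.biUnion fun i => (univ \ {i, π i}).image (lam i) with hY4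
  set Y : Finset L := Y1 ∪ Y3 ∪ Y4 with hY
  set F : Subfield L := Subfield.closure (Y : Set L) with hF
  have hYF : ∀ y ∈ Y, y ∈ F := fun y hy => Subfield.subset_closure (by exact_mod_cast hy)
  have hu : ∀ i, u i ∈ F := fun i => hYF _ (by simp [hY, hY1])
  have hαβ : ∀ i, α i ∈ F ∧ β i ∈ F := by
    intro i
    by_cases hia : i = a
    · rw [hia, ha, ha']
      exact ⟨F.one_mem, F.zero_mem⟩
    · by_cases hib : i = b
      · rw [hib, hb, hb']
        exact ⟨F.zero_mem, F.one_mem⟩
      · have hi : i ∈ (univ \ {a, b} : Finset ι) := by simp [hia, hib]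
        have hs : α i + β i ∈ F := by
          apply hYF
          rw [hY]
          apply Finset.mem_union_left
          apply Finset.mem_union_right
          rw [hY3]
          exact Finset.mem_image_of_mem _ hi
        rcases hc i with h | h
        · rw [h, zero_add] at hs
          rw [h]
          exact ⟨F.zero_mem, hs⟩
        · rw [h, add_zero] at hs
          rw [h]
          exact ⟨hs, F.zero_mem⟩
  have hrest : ∀ i j, j ≠ i → j ≠ π i → lam i j ∈ F := by
    intro i j e1 e2
    apply hYF
    rw [hY]
    apply Finset.mem_union_right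
    rw [hY4, Finset.mem_biUnion]
    exact ⟨i, mem_univ i, Finset.mem_image.2 ⟨j, by simp [e1, e2], rfl⟩⟩
  have hz : ∀ i, ∑ j, lam i j * (if α i = 0 then α j * α j else β j * β j) = 0 := by
    intro i
    by_cases h0 : α i = 0
    · have hβ := (hw i).resolve_left (fun h => h h0)
      have h := h1 i
      rw [h0, mul_zero] at h
      have e : ∀ j, lam i j * om α β j i * α j = β i * (lam i j * (α j * α j)) := by
        intro j
        unfold om
        rw [h0]
        ring
      simp only [e] at h
      rw [← Finset.mul_sum] at h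
      simpa [h0] using (mul_eq_zero.1 h).resolve_left hβ
    · have hβ := (hc i).resolve_left h0
      have h := h2 i
      rw [hβ, mul_zero] at h
      have e : ∀ j, lam i j * om α β j i * β j = -α i * (lam i j * (β j * β j)) := by
        intro j
        unfold om
        rw [hβ]
        ring
      simp only [e] at h
      rw [← Finset.mul_sum] at h
      simpa [h0] using (mul_eq_zero.1 h).resolve_left (neg_ne_zero.2 h0)
  have s1 : ∀ i, lam i (π i) ∈ F := by
    intro i
    have h := hz i
    rw [← Finset.sum_sdiff (Finset.subset_univ ({i, π i} : Finset ι)),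
      Finset.sum_pair (nπ i).symm] at h
    have hi : (if α i = 0 then α i * α i else β i * β i) = 0 := by
      split_ifs with h0
      · rw [h0, mul_zero]
      · rw [(hc i).resolve_left h0, mul_zero]
    have hπ1 : (if α i = 0 then α (π i) * α (π i) else β (π i) * β (π i)) = 1 := by
      rw [hπ]
      simp only
      split_ifs with h0
      · rw [ha, mul_one]
      · rw [hb', mul_one]
    rw [hi, hπ1, mul_zero, zero_add, mul_one] at h
    rw [eq_neg_of_add_eq_zero_right h]
    refine F.neg_mem (F.sum_mem fun j hj => ?_)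
    simp only [mem_sdiff, mem_univ, true_and, mem_insert, mem_singleton, not_or] at hj
    refine F.mul_mem (hrest i j hj.1 hj.2) ?_
    split_ifs
    · exact F.mul_mem (hαβ j).1 (hαβ j).1
    · exact F.mul_mem (hαβ j).2 (hαβ j).2
  have hall : ∀ v, pt lam u v ∈ F := by
    rintro (⟨⟨i, j⟩, hij⟩ | i)
    · show lam i j ∈ F
      have hij' : j ≠ i := fun h => hij h.symm
      by_cases e1 : j = π i
      · rw [e1]; exact s1 i
      · exact hrest i j hij' e1
    · exact hu i
  have hcard := card_le hX Y hall
  rw [card_var] at hcard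
  set m := Fintype.card ι with hm
  have c1 : Y1.card ≤ m := Finset.card_image_le.trans (le_of_eq Finset.card_univ)
  have c3 : Y3.card ≤ m - 2 := by
    refine Finset.card_image_le.trans (le_of_eq ?_)
    rw [Finset.card_sdiff_of_subset (Finset.subset_univ _), Finset.card_pair nab, Finset.card_univ]
  have c4 : Y4.card ≤ m * (m - 2) := by
    have := Finset.card_biUnion_le_card_mul (univ : Finset ι)
      (fun i => (univ \ {i, π i}).image (lam i)) (m - 2) fun i _ => by
        refine Finset.card_image_le.trans (le_of_eq ?_)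
        rw [Finset.card_sdiff_of_subset (Finset.subset_univ _), Finset.card_univ,
          Finset.card_pair (nπ i).symm]
    rwa [Finset.card_univ] at this
  have h2m : 2 ≤ m := by
    rw [hm, ← Finset.card_univ, ← Finset.card_pair nab]
    exact Finset.card_le_card (Finset.subset_univ _)
  have cY : Y.card ≤ m + (m - 2) + m * (m - 2) := by
    rw [hY]
    exact (Finset.card_union_le _ _).trans (Nat.add_le_add ((Finset.card_union_le _ _).trans
      (Nat.add_le_add c1 c3)) c4)
  obtain ⟨k, hk⟩ := Nat.exists_eq_add_of_le h2m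
  rw [hk] at cY hcard
  have e1 : 2 + k - 2 = k := by omega
  rw [e1] at cY
  have := hcard.trans cY
  nlinarith

/-- all vectors nonzero -/
theorem generic_ne {lam : ι → ι → L} {u : ι → L} (s : ι → ℤ) {ε : L} {α β : ι → L}
    (hw : ∀ i, α i ≠ 0 ∨ β i ≠ 0)
    (h1 : ∀ i, ∑ j, lam i j * om α β j i * α j = ε * (s i : L) * u i * α i)
    (h2 : ∀ i, ∑ j, lam i j * om α β j i * β j = ε * (s i : L) * u i * β i)
    (hX : AlgebraicIndependent ℤ (pt lam u)) (a b : ι) : om α β a b = 0 := by
  by_contra hab
  -- new coordinates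
  set d := om α β a b with hd
  set α' : ι → L := fun i => om α β i b / d with hα'
  set β' : ι → L := fun i => om α β a i / d with hβ'
  have eα : ∀ i, α i = α' i * α a + β' i * α b := by
    intro i
    rw [hα', hβ']
    simp only
    rw [div_mul_eq_mul_div, div_mul_eq_mul_div, ← add_div, eq_div_iff hab, hd]
    unfold om
    ring
  have eβ : ∀ i, β i = α' i * β a + β' i * β b := by
    intro i
    rw [hα', hβ']
    simp only
    rw [div_mul_eq_mul_div, div_mul_eq_mul_div, ← add_div, eq_div_iff hab, hd]
    unfold om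
    ring
  have eo : ∀ i j, om α β i j = om α' β' i j * d := by
    intro i j
    rw [hd]
    unfold om
    rw [eα i, eβ i, eα j, eβ j]
    ring
  have haa : α' a = 1 := by
    rw [hα']
    exact div_self hab
  have hba : β' a = 0 := by
    rw [hβ']
    simp only
    have : om α β a a = 0 := by unfold om; ring
    rw [this, zero_div]
  have hab' : α' b = 0 := by
    rw [hα']
    simp only
    have : om α β b b = 0 := by unfold om; ring
    rw [this, zero_div]
  have hbb : β' b = 1 := by
    rw [hβ']
    exact div_self hab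
  have hw' : ∀ i, α' i ≠ 0 ∨ β' i ≠ 0 := by
    intro i
    by_contra hcon
    push Not at hcon
    rcases hw i with h | h
    · exact h (by rw [eα, hcon.1, hcon.2, zero_mul, zero_mul, add_zero])
    · exact h (by rw [eβ, hcon.1, hcon.2, zero_mul, zero_mul, add_zero])
  have key : ∀ i, ∑ j, lam i j * om α' β' j i * α' j = ε / d * (s i : L) * u i * α' i ∧
      ∑ j, lam i j * om α' β' j i * β' j = ε / d * (s i : L) * u i * β' i := by
    intro i
    have r1 := h1 i
    have r2 := h2 i
    have t1 : ∑ j, lam i j * om α β j i * α j = d * ((∑ j, lam i j * om α' β' j i * α' j) * α a +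
        (∑ j, lam i j * om α' β' j i * β' j) * α b) := by
      rw [Finset.sum_mul, Finset.sum_mul, ← Finset.sum_add_distrib, Finset.mul_sum]
      refine Finset.sum_congr rfl fun j _ => ?_
      rw [eo, eα j]
      ring
    have t2 : ∑ j, lam i j * om α β j i * β j = d * ((∑ j, lam i j * om α' β' j i * α' j) * β a +
        (∑ j, lam i j * om α' β' j i * β' j) * β b) := by
      rw [Finset.sum_mul, Finset.sum_mul, ← Finset.sum_add_distrib, Finset.mul_sum]
      refine Finset.sum_congr rfl fun j _ => ?_
      rw [eo, eβ j]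
      ring
    rw [t1, eα i] at r1
    rw [t2, eβ i] at r2
    set U := ∑ j, lam i j * om α' β' j i * α' j
    set V := ∑ j, lam i j * om α' β' j i * β' j
    have hdd : d = α a * β b - β a * α b := by rw [hd]; rfl
    constructor
    · rw [div_mul_eq_mul_div, div_mul_eq_mul_div, div_mul_eq_mul_div, eq_div_iff hab]
      have : d * (U * d - ε * (s i : L) * u i * α' i) = 0 := by
        have q1 : d * ((U * α a + V * α b) * β b - (U * β a + V * β b) * α b) =
            ε * (s i : L) * u i * ((α' i * α a + β' i * α b) * β b -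
              (α' i * β a + β' i * β b) * α b) := by
          linear_combination β b * r1 - α b * r2
        have q2 : (U * α a + V * α b) * β b - (U * β a + V * β b) * α b = U * d := by
          rw [hdd]; ring
        have q3 : (α' i * α a + β' i * α b) * β b - (α' i * β a + β' i * β b) * α b = α' i * d := by
          rw [hdd]; ring
        rw [q2, q3] at q1
        linear_combination q1
      exact sub_eq_zero.1 ((mul_eq_zero.1 this).resolve_left hab)
    · rw [div_mul_eq_mul_div, div_mul_eq_mul_div, div_mul_eq_mul_div, eq_div_iff hab]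
      have : d * (V * d - ε * (s i : L) * u i * β' i) = 0 := by
        have q1 : d * ((U * β a + V * β b) * α a - (U * α a + V * α b) * β a) =
            ε * (s i : L) * u i * ((α' i * β a + β' i * β b) * α a -
              (α' i * α a + β' i * α b) * β a) := by
          linear_combination α a * r2 - β a * r1
        have q2 : (U * β a + V * β b) * α a - (U * α a + V * α b) * β a = V * d := by
          rw [hdd]; ring
        have q3 : (α' i * β a + β' i * β b) * α a - (α' i * α a + β' i * α b) * β a = β' i * d := by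
          rw [hdd]; ring
        rw [q2, q3] at q1
        linear_combination q1
      exact sub_eq_zero.1 ((mul_eq_zero.1 this).resolve_left hab)
  by_cases hc : ∃ c, α' c ≠ 0 ∧ β' c ≠ 0
  · obtain ⟨c, hc1, hc2⟩ := hc
    exact case_one s haa hba hab' hbb hc1 hc2 hw' (fun i => (key i).1) (fun i => (key i).2) hX
  · push Not at hc
    exact case_two s haa hba hab' hbb hw' (fun i => by
      by_cases h : α' i = 0
      · exact Or.inl h
      · exact Or.inr (hc i h)) (fun i => (key i).1) (fun i => (key i).2) hX

/-- **No solutions over the generic point.** -/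
theorem generic {lam : ι → ι → L} {u : ι → L} (s : ι → ℤ) {ε : L} {α β : ι → L}
    (h1 : ∀ i, ∑ j, lam i j * om α β j i * α j = ε * (s i : L) * u i * α i)
    (h2 : ∀ i, ∑ j, lam i j * om α β j i * β j = ε * (s i : L) * u i * β i)
    (hX : AlgebraicIndependent ℤ (pt lam u)) (a b : ι) : om α β a b = 0 := by
  classical
  by_cases ha : α a ≠ 0 ∨ β a ≠ 0
  swap
  · push Not at ha
    unfold om
    rw [ha.1, ha.2, zero_mul, zero_mul, sub_zero]
  by_cases hb : α b ≠ 0 ∨ β b ≠ 0
  swap
  · push Not at hb
    unfold om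
    rw [hb.1, hb.2, mul_zero, mul_zero, sub_zero]
  let κ : Type := {i : ι // α i ≠ 0 ∨ β i ≠ 0}
  have hsum : ∀ (γ : ι → L) (i : ι), (∀ j, ¬ (α j ≠ 0 ∨ β j ≠ 0) → γ j = 0) →
      ∑ j : κ, lam i j.1 * om α β j.1 i * γ j.1 = ∑ j, lam i j * om α β j i * γ j := by
    intro γ i hγ
    rw [← Finset.sum_subtype (univ.filter fun j => α j ≠ 0 ∨ β j ≠ 0) (fun x => by simp)
      (fun j => lam i j * om α β j i * γ j)]
    rw [Finset.sum_filter_of_ne]
    intro j _ hne
    by_contra hcon
    rw [hγ j hcon, mul_zero] at hne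
    exact hne rfl
  have hXκ : AlgebraicIndependent ℤ (pt (fun i j : κ => lam i.1 j.1) (fun i : κ => u i.1)) := by
    let f : Var κ → Var ι := Sum.map (fun x => ⟨(x.1.1.1, x.1.2.1), fun h => x.2 (Subtype.ext h)⟩)
      (fun i => i.1)
    have hf : Function.Injective f := by
      refine Sum.map_injective.2 ⟨?_, Subtype.val_injective⟩
      rintro ⟨⟨i, j⟩, h⟩ ⟨⟨i', j'⟩, h'⟩ he
      simp only [Subtype.mk.injEq, Prod.mk.injEq] at he
      simp only [Subtype.mk.injEq, Prod.mk.injEq]
      exact ⟨Subtype.ext he.1, Subtype.ext he.2⟩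
    have := hX.comp f hf
    convert this using 1
    funext v
    rcases v with v | v <;> rfl
  exact generic_ne (ι := κ) (lam := fun i j => lam i.1 j.1) (u := fun i => u i.1)
    (fun i => s i.1) (ε := ε) (α := fun i => α i.1) (β := fun i => β i.1) (fun i => i.2)
    (fun i => (hsum α i.1 fun j hj => by
      push Not at hj
      exact hj.1).trans (h1 i.1))
    (fun i => (hsum β i.1 fun j hj => by
      push Not at hj
      exact hj.2).trans (h2 i.1)) hXκ ⟨a, ha⟩ ⟨b, hb⟩

end

end Pool.Agent.T9h32.GT
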