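import Mathlib

/-!
# A bound for the number of algebraically independent elements of a finitely generated field
-/

set_option autoImplicit false

namespace Pool.Agent.T9h32.GT

open Algebra

/-- all elements of the field generated by `s` are algebraic over the ring generated by `s` -/
theorem isAlgebraic_of_mem_closure {L : Type} [Field L] (s : Set L) {x : L}
    (hx : x ∈ Subfield.closure s) : IsAlgebraic (adjoin ℤ s) x := by
  induction hx using Subfield.closure_induction with
  | mem x hx => exact isAlgebraic_algebraMap (⟨x, subset_adjoin hx⟩ : adjoin ℤ s)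
  | one => exact isAlgebraic_one
  | add x y _ _ hx hy => exact hx.add hy
  | neg x _ hx => exact hx.neg
  | inv x _ hx => exact hx.inv
  | mul x y _ _ hx hy => exact hx.mul hy

/-- Algebraically independent elements of the field generated by a finite set `Y` are not more than
the elements of `Y`. -/
theorem card_le {L : Type} [Field L] {ι : Type} [Fintype ι] {X : ι → L}
    (hX : AlgebraicIndependent ℤ X) (Y : Finset L)
    (h : ∀ i, X i ∈ Subfield.closure (Y : Set L)) : Fintype.card ι ≤ Y.card := by
  classical
  have hf : FaithfulSMul ℤ L := (faithfulSMul_iff_algebraMap_injective ℤ L).2 hX.algebraMap_injective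
  have h1 : (AlgebraicIndependent.matroid ℤ L).Indep (Set.range X) :=
    AlgebraicIndependent.matroid_indep_iff.2 hX.to_subtype_range
  have h2 : Set.range X ⊆ (AlgebraicIndependent.matroid ℤ L).closure (Y : Set L) := by
    rw [AlgebraicIndependent.matroid_closure_eq]
    rintro _ ⟨i, rfl⟩
    exact isAlgebraic_of_mem_closure _ (h i)
  have h3 := h1.encard_le_eRk_of_subset h2
  rw [Matroid.eRk_closure_eq] at h3
  have h4 := h3.trans (Matroid.eRk_le_encard _ _)
  rw [Set.encard_coe_eq_coe_finsetCard] at h4
  have h5 := hX.injective.encard_range
  rw [ENat.card_eq_coe_fintype_card] at h5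
  exact_mod_cast h5.trans h4

end Pool.Agent.T9h32.GT
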